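import Pool.Agent.H83.VU.Targets

set_option autoImplicit false

open Finset Pool.Agent.H83.VU

namespace Pool.Agent.H61.VU

theorem rr_eq (k s : ℕ) (A : Finset ℤ) (h : Fin k → ℤ) :
    rr k s A h = ∑ g ∈ (vec s A).image (ps k (s := s)),
      ((vec s A).filter fun u => ps k u = g).card *
        ((vec s A).filter fun u => ps k u = g + h).card := by
  have h1 : rr k s A h = ∑ v ∈ vec s A, ((vec s A).filter fun u => ps k u = ps k v + h).card := by
    unfold rr
    rw [card_filter, sum_product_right]
    refine sum_congr rfl fun v _ => ?_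
    rw [card_filter]
    refine sum_congr rfl fun u _ => ?_
    refine if_congr ?_ rfl rfl
    constructor
    · intro e1
      rw [← e1]; abel
    · intro e1
      rw [e1]; abel
  rw [h1, sum_comp (fun g => ((vec s A).filter fun u => ps k u = g + h).card) (ps k (s := s))]
  simp only [smul_eq_mul]

theorem pf_CS : T_CS := by
  intro k s A h
  set r : (Fin k → ℤ) → ℕ := fun g => ((vec s A).filter fun u => ps k u = g).card with hr
  set G := (vec s A).image (ps k (s := s)) with hG
  have hh : rr k s A h = ∑ g ∈ G, r g * r (g + h) := rr_eq k s A h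
  have h0 : rr k s A 0 = ∑ g ∈ G, r g * r g := by
    rw [rr_eq k s A 0]
    refine sum_congr rfl fun g _ => ?_
    rw [add_zero]
  have hshift : ∑ g ∈ G, r (g + h) * r (g + h) ≤ ∑ g ∈ G, r g * r g := by
    have e1 : ∑ g ∈ G, r (g + h) * r (g + h) =
        ∑ g ∈ G.image (fun g => g + h), r g * r g := by
      exact (sum_image (s := G) (g := fun g : Fin k → ℤ => g + h)
        (f := fun g => r g * r g) (fun a _ b _ hab => add_right_cancel hab)).symm
    rw [e1]
    refine sum_le_sum_of_ne_zero fun g _ hg => ?_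
    have hr0 : r g ≠ 0 := fun h0 => hg (by rw [h0, mul_zero])
    rw [hr] at hr0
    obtain ⟨u, hu⟩ := Finset.card_ne_zero.mp hr0
    rw [mem_filter] at hu
    rw [hG, mem_image]
    exact ⟨u, hu.1, hu.2⟩
  have h2 : 2 * rr k s A h ≤ 2 * rr k s A 0 := by
    calc 2 * rr k s A h = ∑ g ∈ G, 2 * (r g * r (g + h)) := by rw [hh, mul_sum]
      _ ≤ ∑ g ∈ G, (r g * r g + r (g + h) * r (g + h)) := by
          refine sum_le_sum fun g _ => ?_
          zify
          nlinarith [sq_nonneg ((r g : ℤ) - (r (g + h) : ℤ))]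
      _ = ∑ g ∈ G, r g * r g + ∑ g ∈ G, r (g + h) * r (g + h) := sum_add_distrib
      _ ≤ ∑ g ∈ G, r g * r g + ∑ g ∈ G, r g * r g := by omega
      _ = 2 * rr k s A 0 := by rw [h0]; ring
  omega

end Pool.Agent.H61.VU
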